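import Pool.Agent.N658.FF.Stm2
import Pool.Agent.TH235.PP.TN

set_option autoImplicit false

/-! # Project FF (helper658), job B1: the terms form a local family -/

open scoped BigOperators InnerProductSpace Matrix Classical ComplexOrder

noncomputable section

namespace Pool.Agent.N401.FF

open Pool.Agent.N658.FF Pool.Agent.TH235.PP

section abstract_

variable {E : Type} [NormedAddCommGroup E] [InnerProductSpace ℂ E] [FiniteDimensional ℂ E]

/-- a symmetric map which preserves a subspace commutes with the projection -/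
theorem proj_comm {S : E → E} (hS : ∀ a b : E, ⟪S a, b⟫_ℂ = ⟪a, S b⟫_ℂ)
    (hadd : ∀ a b : E, S (a - b) = S a - S b) {K : Submodule ℂ E} (hK : ∀ x ∈ K, S x ∈ K) (x : E) :
    K.starProjection (S x) = S (K.starProjection x) := by
  refine Submodule.eq_starProjection_of_mem_of_inner_eq_zero (hK _ (Submodule.starProjection_apply_mem _ _)) ?_
  intro w hw
  rw [← hadd, hS]
  exact Submodule.starProjection_inner_eq_zero _ _ (hK w hw)

theorem ker_comm {S T : E →ₗ[ℂ] E} (_hS : S.IsSymmetric) (hT : T.IsSymmetric) (hc : ∀ x, S (T x) = T (S x)) :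
    Commute (pr (LinearMap.ker S)) (pr (LinearMap.ker T)) := by
  have h1 : ∀ x, (LinearMap.ker S).starProjection (T x) = T ((LinearMap.ker S).starProjection x) := by
    refine proj_comm (fun a b => hT a b) (fun a b => map_sub T a b) ?_
    intro x hx
    rw [LinearMap.mem_ker] at hx ⊢
    rw [hc, hx, map_zero]
  have h2 : ∀ x, (LinearMap.ker T).starProjection ((LinearMap.ker S).starProjection x) =
      (LinearMap.ker S).starProjection ((LinearMap.ker T).starProjection x) := by
    refine proj_comm (fun a b => Submodule.starProjection_isSymmetric _ a b)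
      (fun a b => map_sub _ a b) ?_
    intro x hx
    rw [LinearMap.mem_ker] at hx ⊢
    have h3 := h1 x
    rw [hx, map_zero] at h3
    exact h3.symm
  show _ * _ = _ * _
  ext x
  exact (h2 x).symm

end abstract_

section term_

variable {d R L : ℕ} [NeZero L]

theorem term_comm' (h : BoxOp d R) (u u' : Site L)
    (hd : ∀ x x' : Fin R × Fin R, sh u x ≠ sh u' x') :
    Commute (term h u) (term h u') := by
  rw [term_eq h u, term_eq h u']
  refine Commute.sum_left _ _ _ fun pq _ => Commute.sum_right _ _ _ fun pq' _ => ?_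
  refine Commute.smul_left (Commute.smul_right ?_ _) _
  unfold Commute SemiconjBy
  rw [tp_mul, tp_mul]
  congr 1
  funext v
  by_cases hv : ∃ x : Fin R × Fin R, sh u x = v
  · obtain ⟨x, rfl⟩ := hv
    rw [loc_out u' _ _ _ (fun x' => (hd x x').symm), mul_one, one_mul]
  · push Not at hv
    rw [loc_out u _ _ _ hv, mul_one, one_mul]

theorem term_herm {h : BoxOp d R} (hh : h.IsHermitian) (u : Site L) : (term h u).IsHermitian := by
  ext s t
  rw [Matrix.conjTranspose_apply]
  unfold term
  by_cases hc : ∀ v, (∀ x : Fin R × Fin R, sh u x ≠ v) → s v = t v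
  · rw [if_pos hc, if_pos (fun v hv => (hc v hv).symm)]
    exact hh.apply _ _
  · rw [if_neg hc, if_neg (fun hc' => hc (fun v hv => (hc' v hv).symm)), star_zero]

end term_

/-- the neighbours of a site -/
theorem deg_ (R L : ℕ) [NeZero L] (hR : 1 ≤ R) (u : Site L) :
    (Finset.univ.filter fun v => adjR R L u v).card ≤ 4 * R ^ 2 := by
  classical
  let S : Finset ℤ := Finset.Ioo (-(R : ℤ)) R
  have hS : S.card = 2 * R - 1 := by
    rw [Int.card_Ioo]
    omega
  have hsub : (Finset.univ.filter fun v => adjR R L u v) ⊆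
      (S ×ˢ S).image (fun z : ℤ × ℤ => ((u.1 + (z.1 : ZMod L), u.2 + (z.2 : ZMod L)) : Site L)) := by
    intro v hv
    rw [Finset.mem_filter] at hv
    obtain ⟨-, x, y, hxy⟩ := hv
    rw [Finset.mem_image]
    unfold sh at hxy
    rw [Prod.mk.injEq] at hxy
    have h1 := x.1.2
    have h2 := x.2.2
    have h3 := y.1.2
    have h4 := y.2.2
    refine ⟨(((x.1 : ℕ) : ℤ) - ((y.1 : ℕ) : ℤ), ((x.2 : ℕ) : ℤ) - ((y.2 : ℕ) : ℤ)), ?_, ?_⟩
    · simp only [Finset.mem_product, S, Finset.mem_Ioo]
      omega
    · apply Prod.ext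
      · show u.1 + (((((x.1 : ℕ) : ℤ) - ((y.1 : ℕ) : ℤ) : ℤ)) : ZMod L) = v.1
        push_cast
        linear_combination hxy.1
      · show u.2 + (((((x.2 : ℕ) : ℤ) - ((y.2 : ℕ) : ℤ) : ℤ)) : ZMod L) = v.2
        push_cast
        linear_combination hxy.2
  have h5 := (Finset.card_le_card hsub).trans Finset.card_image_le
  rw [Finset.card_product, hS] at h5
  refine h5.trans ?_
  obtain ⟨r, rfl⟩ : ∃ r, R = r + 1 := ⟨R - 1, by omega⟩
  have h6 : 2 * (r + 1) - 1 = 2 * r + 1 := by omega
  rw [h6]
  nlinarith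

theorem loc : StmLoc := by
  intro d R L _ hR hRL h hh
  refine ⟨?_, ?_, ?_, ?_⟩
  · rintro u v ⟨x, y, hxy⟩
    exact ⟨y, x, hxy.symm⟩
  · intro u v huv
    have hd : ∀ x x' : Fin R × Fin R, sh u x ≠ sh v x' := fun x x' hx => huv ⟨x, x', hx⟩
    have hc := term_comm' h u v hd
    unfold Vt
    refine ker_comm (Matrix.isSymmetric_toEuclideanLin_iff.2 (term_herm hh u))
      (Matrix.isSymmetric_toEuclideanLin_iff.2 (term_herm hh v)) ?_
    intro x
    rw [Matrix.toLpLin_apply, Matrix.toLpLin_apply, Matrix.toLpLin_apply, Matrix.toLpLin_apply]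
    simp only [Matrix.mulVec_mulVec]
    rw [hc.eq]
  · intro u
    convert deg_ R L hR u
  · have : 1 ≤ R ^ 2 := Nat.one_le_pow _ _ hR
    omega

end Pool.Agent.N401.FF
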